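import Mathlib

/-!
# A Lipschitz homeomorphism of a nonseparable Hilbert space that is nowhere Gateaux differentiable

For an uncountable set `Γ` let `X = ℓ²(Γ)` (real scalars).  The map
`φ x = x + (1/2) |x|` (coordinatewise absolute value) is a bijection of `X` onto `X`, it is
Lipschitz together with its inverse, and it is Gateaux differentiable at no point of `X`: every
point `x` of `X` has a coordinate `γ` with `x γ = 0`, and in the direction `e_γ` the two one-sided
derivatives at `x` are `(3/2) e_γ` and `(1/2) e_γ`.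

`X` is a nonseparable Hilbert space, hence nonseparable, reflexive and superreflexive.
-/

open Filter Topology Set
open scoped ENNReal NNReal

namespace Pool.Agent.Results.MP_714461_an.NowhereDifferentiable

universe u v

/-! ### Definitions -/

/-- A real Banach space is reflexive if the canonical map into the bidual is onto. -/
def IsReflexive (X : Type u) [NormedAddCommGroup X] [NormedSpace ℝ X] : Prop :=
  Function.Surjective (NormedSpace.inclusionInDoubleDual ℝ X)

/-- `E` is finitely representable in `X`: for every finite dimensional subspace `F` of `E` and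
every `ε > 0` there is a linear map `T : F → X` with `‖x‖ ≤ ‖T x‖ ≤ (1 + ε) ‖x‖` on `F`. -/
def FinitelyRepresentable (E : Type v) [NormedAddCommGroup E] [NormedSpace ℝ E]
    (X : Type u) [NormedAddCommGroup X] [NormedSpace ℝ X] : Prop :=
  ∀ F : Submodule ℝ E, FiniteDimensional ℝ F → ∀ ε : ℝ, 0 < ε →
    ∃ T : F →ₗ[ℝ] X, ∀ x : F, ‖x‖ ≤ ‖T x‖ ∧ ‖T x‖ ≤ (1 + ε) * ‖x‖

/-- `X` is superreflexive if every Banach space finitely representable in `X` is reflexive. -/
def IsSuperreflexive (X : Type u) [NormedAddCommGroup X] [NormedSpace ℝ X] : Prop :=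
  ∀ (E : Type v) [NormedAddCommGroup E] [NormedSpace ℝ E] [CompleteSpace E],
    FinitelyRepresentable E X → IsReflexive E

/-- `φ` is a bijection of `X` onto `Y` and both `φ` and its inverse are Lipschitz. -/
def IsLipschitzHomeomorphism {X : Type u} {Y : Type v} [NormedAddCommGroup X]
    [NormedAddCommGroup Y] (φ : X → Y) : Prop :=
  ∃ e : X ≃ Y, (∀ x, e x = φ x) ∧ (∃ K : ℝ≥0, LipschitzWith K e) ∧
    ∃ K : ℝ≥0, LipschitzWith K e.symm

/-- `φ` is Gateaux differentiable at `x₀`. -/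
def GateauxDifferentiableAt {X : Type u} {Y : Type v} [NormedAddCommGroup X] [NormedSpace ℝ X]
    [NormedAddCommGroup Y] [NormedSpace ℝ Y] (φ : X → Y) (x₀ : X) : Prop :=
  ∃ T : X →L[ℝ] Y, ∀ h : X,
    Tendsto (fun t : ℝ => t⁻¹ • (φ (x₀ + t • h) - φ x₀)) (𝓝[≠] 0) (𝓝 (T h))

/-- The affirmative answer to Q1. -/
def AffirmativeQ1 : Prop :=
  ∀ (X Y : Type u) [NormedAddCommGroup X] [NormedSpace ℝ X] [CompleteSpace X]
    [NormedAddCommGroup Y] [NormedSpace ℝ Y] [CompleteSpace Y],
    ¬ TopologicalSpace.SeparableSpace X → ¬ TopologicalSpace.SeparableSpace Y →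
    IsReflexive X → IsReflexive Y →
    ∀ φ : X → Y, IsLipschitzHomeomorphism φ → ∃ x₀ : X, GateauxDifferentiableAt φ x₀

/-- The affirmative answer to Q2. -/
def AffirmativeQ2 : Prop :=
  ∀ (X Y : Type u) [NormedAddCommGroup X] [NormedSpace ℝ X] [CompleteSpace X]
    [NormedAddCommGroup Y] [NormedSpace ℝ Y] [CompleteSpace Y],
    ¬ TopologicalSpace.SeparableSpace X → ¬ TopologicalSpace.SeparableSpace Y →
    IsSuperreflexive.{u, v} X → IsSuperreflexive.{u, v} Y →
    ∀ φ : X → Y, IsLipschitzHomeomorphism φ → ∃ x₀ : X, GateauxDifferentiableAt φ x₀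

/-! ### Hilbert spaces are superreflexive -/

/-- A complete normed space satisfying the parallelogram law is reflexive. -/
lemma isReflexive_of_parallelogram (E : Type v) [NormedAddCommGroup E] [NormedSpace ℝ E]
    [CompleteSpace E]
    (h : ∀ x y : E, ‖x + y‖ * ‖x + y‖ + ‖x - y‖ * ‖x - y‖ = 2 * (‖x‖ * ‖x‖ + ‖y‖ * ‖y‖)) :
    IsReflexive E := by
  let _ : InnerProductSpace ℝ E := InnerProductSpace.ofNorm ℝ h
  intro Φ
  -- pull `Φ` back to `E` by the Riesz isomorphism
  let R : E →L[ℝ] StrongDual ℝ E := (InnerProductSpace.toDualMap ℝ E).toContinuousLinearMap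
  have hR : ∀ x y : E, R x y = inner ℝ x y := fun x y => rfl
  obtain ⟨z, hz⟩ := (InnerProductSpace.toDual ℝ E).surjective (Φ.comp R)
  refine ⟨z, ?_⟩
  ext g
  obtain ⟨y, rfl⟩ := (InnerProductSpace.toDual ℝ E).surjective g
  have h1 : Φ (R y) = inner ℝ z y := by
    have := congrArg (fun f : StrongDual ℝ E => f y) hz
    simpa using this.symm
  have h2 : (InnerProductSpace.toDual ℝ E) y = R y := by
    ext w
    rfl
  rw [NormedSpace.dual_def, h2, h1, hR, real_inner_comm]

/-- A normed space that is finitely representable in a space satisfying the parallelogram law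
satisfies the parallelogram law. -/
lemma parallelogram_of_finitelyRepresentable (E : Type v) [NormedAddCommGroup E]
    [NormedSpace ℝ E] (X : Type u) [NormedAddCommGroup X] [InnerProductSpace ℝ X]
    (hEX : FinitelyRepresentable E X) (x y : E) :
    ‖x + y‖ * ‖x + y‖ + ‖x - y‖ * ‖x - y‖ = 2 * (‖x‖ * ‖x‖ + ‖y‖ * ‖y‖) := by
  let F : Submodule ℝ E := Submodule.span ℝ {x, y}
  have hF : FiniteDimensional ℝ F :=
    FiniteDimensional.span_of_finite ℝ (Set.toFinite {x, y})
  have hx : x ∈ F := Submodule.subset_span (by simp)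
  have hy : y ∈ F := Submodule.subset_span (by simp)
  set x' : F := ⟨x, hx⟩ with hx'
  set y' : F := ⟨y, hy⟩ with hy'
  have e1 : ‖x' + y'‖ = ‖x + y‖ := rfl
  have e2 : ‖x' - y'‖ = ‖x - y‖ := rfl
  have e3 : ‖x'‖ = ‖x‖ := rfl
  have e4 : ‖y'‖ = ‖y‖ := rfl
  set A : ℝ := ‖x + y‖ * ‖x + y‖ + ‖x - y‖ * ‖x - y‖ with hA
  set B : ℝ := 2 * (‖x‖ * ‖x‖ + ‖y‖ * ‖y‖) with hB
  have key : ∀ ε : ℝ, 0 < ε → A ≤ (1 + ε) ^ 2 * B ∧ B ≤ (1 + ε) ^ 2 * A := by
    intro ε hε
    obtain ⟨T, hT⟩ := hEX F hF ε hε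
    have hpar := parallelogram_law_with_norm ℝ (T x') (T y')
    rw [← map_add, ← map_sub] at hpar
    have a1 := hT (x' + y')
    have a2 := hT (x' - y')
    have a3 := hT x'
    have a4 := hT y'
    rw [e1] at a1
    rw [e2] at a2
    rw [e3] at a3
    rw [e4] at a4
    have n1 := norm_nonneg (x + y)
    have n2 := norm_nonneg (x - y)
    have n3 := norm_nonneg x
    have n4 := norm_nonneg y
    have sq : ∀ a b : ℝ, 0 ≤ a → a ≤ (1 + ε) * b → a * a ≤ (1 + ε) ^ 2 * (b * b) := by
      intro a b ha hab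
      have := mul_self_le_mul_self ha hab
      calc a * a ≤ (1 + ε) * b * ((1 + ε) * b) := this
        _ = (1 + ε) ^ 2 * (b * b) := by ring
    have m1 := sq _ _ (norm_nonneg _) a1.2
    have m2 := sq _ _ (norm_nonneg _) a2.2
    have m3 := sq _ _ (norm_nonneg _) a3.2
    have m4 := sq _ _ (norm_nonneg _) a4.2
    have hAe : (1 + ε) ^ 2 * A
        = (1 + ε) ^ 2 * (‖x + y‖ * ‖x + y‖) + (1 + ε) ^ 2 * (‖x - y‖ * ‖x - y‖) := by
      rw [hA]; ring
    have hBe : (1 + ε) ^ 2 * B
        = 2 * ((1 + ε) ^ 2 * (‖x‖ * ‖x‖) + (1 + ε) ^ 2 * (‖y‖ * ‖y‖)) := by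
      rw [hB]; ring
    have l1 := mul_self_le_mul_self n1 a1.1
    have l2 := mul_self_le_mul_self n2 a2.1
    have l3 := mul_self_le_mul_self n3 a3.1
    have l4 := mul_self_le_mul_self n4 a4.1
    constructor
    · rw [hBe, hA]; linarith
    · rw [hAe, hB]; linarith
  have hA0 : 0 ≤ A := by rw [hA]; positivity
  have hB0 : 0 ≤ B := by rw [hB]; positivity
  -- let `ε → 0`
  have lim : ∀ C : ℝ, Tendsto (fun ε : ℝ => (1 + ε) ^ 2 * C) (𝓝[>] 0) (𝓝 C) := by
    intro C
    have : Tendsto (fun ε : ℝ => (1 + ε) ^ 2 * C) (𝓝 0) (𝓝 ((1 + 0) ^ 2 * C)) := by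
      apply Continuous.tendsto
      fun_prop
    simpa using this.mono_left nhdsWithin_le_nhds
  apply le_antisymm
  · exact ge_of_tendsto (lim B) (by
      filter_upwards [self_mem_nhdsWithin] with ε hε using (key ε hε).1)
  · exact ge_of_tendsto (lim A) (by
      filter_upwards [self_mem_nhdsWithin] with ε hε using (key ε hε).2)

/-- Every inner product space is superreflexive. -/
lemma isSuperreflexive_of_inner (X : Type u) [NormedAddCommGroup X] [InnerProductSpace ℝ X] :
    IsSuperreflexive.{u, v} X := by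
  intro E _ _ _ hE
  exact isReflexive_of_parallelogram E (parallelogram_of_finitelyRepresentable E X hE)

/-! ### The space and the map -/

variable {Γ : Type u}

/-- The real Hilbert space `ℓ²(Γ)`. -/
abbrev H (Γ : Type u) : Type u := lp (fun _ : Γ => ℝ) 2

lemma abs_memlp (x : H Γ) : Memℓp (fun i => |x i|) 2 := by
  have := (memℓp_norm_iff (p := 2) (f := fun i => x i)).2 (lp.memℓp x)
  simpa using this

/-- The coordinatewise absolute value on `ℓ²(Γ)`. -/
noncomputable def absH (x : H Γ) : H Γ := ⟨fun i => |x i|, abs_memlp x⟩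

@[simp] lemma absH_apply (x : H Γ) (i : Γ) : absH x i = |x i| := rfl

lemma norm_absH_sub_le (x y : H Γ) : ‖absH x - absH y‖ ≤ ‖x - y‖ := by
  apply lp.norm_mono (by norm_num)
  intro i
  have h1 : (absH x - absH y) i = |x i| - |y i| := by
    rw [lp.coeFn_sub]; rfl
  have h2 : (x - y) i = x i - y i := by
    rw [lp.coeFn_sub]; rfl
  rw [h1, h2, Real.norm_eq_abs, Real.norm_eq_abs]
  exact abs_abs_sub_abs_le (x i) (y i)

lemma lip_aux (a b : ℝ) (K : ℝ≥0) (hK : |a| + |b| ≤ K) :
    LipschitzWith K (fun x : H Γ => a • x + b • absH x) := by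
  apply LipschitzWith.of_dist_le_mul
  intro x y
  rw [dist_eq_norm, dist_eq_norm]
  have : a • x + b • absH x - (a • y + b • absH y) = a • (x - y) + b • (absH x - absH y) := by
    rw [smul_sub, smul_sub]; abel
  rw [this]
  calc ‖a • (x - y) + b • (absH x - absH y)‖
      ≤ ‖a • (x - y)‖ + ‖b • (absH x - absH y)‖ := norm_add_le _ _
    _ = |a| * ‖x - y‖ + |b| * ‖absH x - absH y‖ := by
        rw [norm_smul, norm_smul, Real.norm_eq_abs, Real.norm_eq_abs]
    _ ≤ |a| * ‖x - y‖ + |b| * ‖x - y‖ := by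
        gcongr
        exact norm_absH_sub_le x y
    _ = (|a| + |b|) * ‖x - y‖ := by ring
    _ ≤ K * ‖x - y‖ := by gcongr

lemma comb_apply (a b : ℝ) (x : H Γ) (i : Γ) : (a • x + b • absH x) i = a * x i + b * |x i| := by
  rw [lp.coeFn_add, Pi.add_apply, lp.coeFn_smul, lp.coeFn_smul]
  rfl

/-- The homeomorphism `x ↦ x + (1/2)|x|` of `ℓ²(Γ)`, with inverse `y ↦ (4/3) y - (2/3) |y|`. -/
noncomputable def phi : H Γ ≃ H Γ where
  toFun x := (1 : ℝ) • x + (1 / 2 : ℝ) • absH x
  invFun y := (4 / 3 : ℝ) • y + (-(2 / 3) : ℝ) • absH y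
  left_inv x := by
    apply lp.ext
    funext i
    rw [comb_apply, comb_apply]
    rcases le_total 0 (x i) with h | h
    · have : 0 ≤ 1 * x i + 1 / 2 * |x i| := by rw [abs_of_nonneg h]; linarith
      rw [abs_of_nonneg this, abs_of_nonneg h]; ring
    · have : 1 * x i + 1 / 2 * |x i| ≤ 0 := by rw [abs_of_nonpos h]; linarith
      rw [abs_of_nonpos this, abs_of_nonpos h]; ring
  right_inv y := by
    apply lp.ext
    funext i
    rw [comb_apply, comb_apply]
    rcases le_total 0 (y i) with h | h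
    · have : 0 ≤ 4 / 3 * y i + -(2 / 3) * |y i| := by rw [abs_of_nonneg h]; linarith
      rw [abs_of_nonneg this, abs_of_nonneg h]; ring
    · have : 4 / 3 * y i + -(2 / 3) * |y i| ≤ 0 := by rw [abs_of_nonpos h]; linarith
      rw [abs_of_nonpos this, abs_of_nonpos h]; ring

lemma phi_apply (x : H Γ) (i : Γ) : phi x i = x i + 1 / 2 * |x i| := by
  have := comb_apply 1 (1 / 2) x i
  rw [one_mul] at this
  exact this

lemma phi_lipschitzHomeomorphism : IsLipschitzHomeomorphism (phi : H Γ → H Γ) := by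
  refine ⟨phi, fun _ => rfl, ⟨3 / 2, ?_⟩, ⟨2, ?_⟩⟩
  · apply lip_aux
    have h1 : |(1 / 2 : ℝ)| = 1 / 2 := abs_of_pos (by norm_num)
    have h2 : ((3 / 2 : ℝ≥0) : ℝ) = 3 / 2 := by norm_num
    rw [abs_one, h1, h2]; norm_num
  · apply lip_aux
    have h1 : |(4 / 3 : ℝ)| = 4 / 3 := abs_of_pos (by norm_num)
    have h2 : |(-(2 / 3) : ℝ)| = 2 / 3 := by rw [abs_neg]; exact abs_of_pos (by norm_num)
    have h3 : ((2 : ℝ≥0) : ℝ) = 2 := by norm_num
    rw [h1, h2, h3]; norm_num

/-- Every vector of `ℓ²(Γ)`, `Γ` uncountable, has a zero coordinate. -/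
lemma exists_zero_coord [Uncountable Γ] (x : H Γ) : ∃ i, x i = 0 := by
  by_contra hcon
  push Not at hcon
  have hs : Summable (fun i => ‖x i‖ ^ (2 : ℝ≥0∞).toReal) :=
    (lp.memℓp x).summable (by norm_num)
  have hc := hs.countable_support
  have huniv : Function.support (fun i => ‖x i‖ ^ (2 : ℝ≥0∞).toReal) = Set.univ := by
    ext i
    simp only [Function.mem_support, Set.mem_univ, iff_true]
    have : 0 < ‖x i‖ := norm_pos_iff.2 (hcon i)
    positivity
  rw [huniv] at hc
  exact not_countable (Set.countable_univ_iff.1 hc)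

lemma phi_nowhere [DecidableEq Γ] [Uncountable Γ] (x : H Γ) :
    ¬ GateauxDifferentiableAt (phi : H Γ → H Γ) x := by
  rintro ⟨T, hT⟩
  obtain ⟨i, hi⟩ := exists_zero_coord x
  set e : H Γ := lp.single 2 i (1 : ℝ) with he
  have hei : e i = 1 := lp.single_apply_self (E := fun _ : Γ => ℝ) 2 i (1 : ℝ)
  have hlim := hT e
  -- evaluate at the coordinate `i`
  have hev : Tendsto (fun t : ℝ => (t⁻¹ • (phi (x + t • e) - phi x) : H Γ) i) (𝓝[≠] 0)
      (𝓝 ((T e) i)) := by
    have hcont : Continuous (fun y : H Γ => y i) := (lp.evalCLM ℝ (fun _ : Γ => ℝ) 2 i).continuous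
    exact (hcont.tendsto _).comp hlim
  have hcalc : ∀ t : ℝ, (t⁻¹ • (phi (x + t • e) - phi x) : H Γ) i
      = t⁻¹ * (t + 1 / 2 * |t|) := by
    intro t
    have h1 : (t⁻¹ • (phi (x + t • e) - phi x) : H Γ) i
        = t⁻¹ * ((phi (x + t • e)) i - (phi x) i) := by
      rw [lp.coeFn_smul, Pi.smul_apply, lp.coeFn_sub]
      rfl
    have h2 : (x + t • e) i = t := by
      rw [lp.coeFn_add, Pi.add_apply, lp.coeFn_smul, Pi.smul_apply, hi, hei]
      simp
    rw [h1, phi_apply, phi_apply, h2, hi]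
    simp
  simp_rw [hcalc] at hev
  -- right limit
  have hr : Tendsto (fun t : ℝ => t⁻¹ * (t + 1 / 2 * |t|)) (𝓝[>] 0) (𝓝 (3 / 2)) := by
    apply Tendsto.congr' _ tendsto_const_nhds
    filter_upwards [self_mem_nhdsWithin] with t ht
    have ht' : (0 : ℝ) < t := ht
    rw [abs_of_pos ht']
    field_simp
    norm_num
  have hl : Tendsto (fun t : ℝ => t⁻¹ * (t + 1 / 2 * |t|)) (𝓝[<] 0) (𝓝 (1 / 2)) := by
    apply Tendsto.congr' _ tendsto_const_nhds
    filter_upwards [self_mem_nhdsWithin] with t ht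
    have ht' : t < (0 : ℝ) := ht
    have ht0 : t ≠ 0 := ht'.ne
    rw [abs_of_neg ht']
    field_simp
    norm_num
  have e1 : (T e) i = 3 / 2 := by
    apply tendsto_nhds_unique (hev.mono_left _) hr
    exact nhdsWithin_mono _ (fun t ht => ne_of_gt ht)
  have e2 : (T e) i = 1 / 2 := by
    apply tendsto_nhds_unique (hev.mono_left _) hl
    exact nhdsWithin_mono _ (fun t ht => ne_of_lt ht)
  rw [e1] at e2
  norm_num at e2

/-- `ℓ²(Γ)` is nonseparable for uncountable `Γ`. -/
lemma not_separable [DecidableEq Γ] [Uncountable Γ] :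
    ¬ TopologicalSpace.SeparableSpace (H Γ) := by
  intro hsep
  have hdist : ∀ i j : Γ, i ≠ j → 1 ≤ dist (lp.single 2 i (1 : ℝ) : H Γ) (lp.single 2 j (1 : ℝ)) := by
    intro i j hij
    rw [dist_eq_norm]
    have h1 := lp.norm_apply_le_norm (E := fun _ : Γ => ℝ) (p := 2) (by norm_num)
      ((lp.single 2 i (1 : ℝ) : H Γ) - lp.single 2 j (1 : ℝ)) i
    have h2 : ((lp.single 2 i (1 : ℝ) : H Γ) - (lp.single 2 j (1 : ℝ) : H Γ) : H Γ) i = 1 := by
      have h3 := lp.single_apply_self (E := fun _ : Γ => ℝ) 2 i (1 : ℝ)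
      have h4 := lp.single_apply_ne (E := fun _ : Γ => ℝ) 2 j (1 : ℝ) hij
      rw [lp.coeFn_sub, Pi.sub_apply, h3, h4]
      simp
    rw [h2] at h1
    simpa using h1
  have hdisj : (Set.univ : Set Γ).PairwiseDisjoint
      (fun i => Metric.ball (lp.single 2 i (1 : ℝ) : H Γ) (1 / 2)) := by
    intro i _ j _ hij
    apply Metric.ball_disjoint_ball
    have := hdist i j hij
    linarith
  have hc := hdisj.countable_of_isOpen (fun i _ => Metric.isOpen_ball)
    (fun i _ => ⟨_, Metric.mem_ball_self (by norm_num)⟩)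
  exact not_countable (Set.countable_univ_iff.1 hc)

/-! ### The result -/

/-- For every uncountable `Γ` the Hilbert space `ℓ²(Γ)` is nonseparable, reflexive and
superreflexive, and `x ↦ x + (1/2)|x|` is a Lipschitz homeomorphism of it onto itself that is
Gateaux differentiable at no point. -/
theorem result (Γ : Type u) [Uncountable Γ] :
    ¬ TopologicalSpace.SeparableSpace (lp (fun _ : Γ => ℝ) 2) ∧
    IsReflexive (lp (fun _ : Γ => ℝ) 2) ∧
    IsSuperreflexive.{u, v} (lp (fun _ : Γ => ℝ) 2) ∧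
    ∃ φ : lp (fun _ : Γ => ℝ) 2 → lp (fun _ : Γ => ℝ) 2,
      (∀ x i, φ x i = x i + 1 / 2 * |x i|) ∧
      IsLipschitzHomeomorphism φ ∧ ∀ x, ¬ GateauxDifferentiableAt φ x := by
  classical
  refine ⟨not_separable, ?_, isSuperreflexive_of_inner _, phi, phi_apply,
    phi_lipschitzHomeomorphism, phi_nowhere⟩
  exact isReflexive_of_parallelogram _ (fun x y => parallelogram_law_with_norm_mul ℝ x y)

lemma uncountable_ulift_real : Uncountable (ULift.{u} ℝ) := by
  rw [← not_countable_iff]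
  intro h
  have : Countable ℝ := Countable.of_equiv _ Equiv.ulift
  exact not_countable this

/-- The negated form of Q1. -/
theorem not_affirmativeQ1 : ¬ AffirmativeQ1.{u} := by
  have := uncountable_ulift_real.{u}
  obtain ⟨h1, h2, -, φ, -, h4, h5⟩ := result.{u, 0} (ULift.{u} ℝ)
  intro h
  obtain ⟨x₀, hx₀⟩ := h _ _ h1 h1 h2 h2 φ h4
  exact h5 x₀ hx₀

/-- The negated form of Q2. -/
theorem not_affirmativeQ2 : ¬ AffirmativeQ2.{u, v} := by
  have := uncountable_ulift_real.{u}
  obtain ⟨h1, -, h3, φ, -, h4, h5⟩ := result.{u, v} (ULift.{u} ℝ)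
  intro h
  obtain ⟨x₀, hx₀⟩ := h _ _ h1 h1 h3 h3 φ h4
  exact h5 x₀ hx₀

end Pool.Agent.Results.MP_714461_an.NowhereDifferentiable
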